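import Pool.Agent.H46.Cons.Exec

/-!
# Block schedules: the processors run one after the other, for `N` steps each
-/

set_option linter.unusedSectionVars false

namespace Pool.Agent.H46.Cons

open MeasureTheory

variable {n : ℕ} [NeZero n] {A : Algorithm n} {ω : Tapes n}

/-- Block schedule: processor `i` takes `N` steps starting at time `(σ i) N`. -/
def blk (σ : Equiv.Perm (Fin n)) (N t : ℕ) : Fin n := σ.symm (Fin.ofNat n (t / N))

/-- Inputs: the first processor has input `false`, the others `true`. -/
def inp (σ : Equiv.Perm (Fin n)) (i : Fin n) : Bool := decide (σ i ≠ 0)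

/-- The solo run of processor `i` with input `x`. -/
noncomputable def solo (A : Algorithm n) (i : Fin n) (x : Bool) (ω : Tapes n) (m : ℕ) : Config A :=
  run A (fun _ => x) (fun _ => i) ω m

theorem blk_eq {σ : Equiv.Perm (Fin n)} {N t a : ℕ} (h : t / N = a) (ha : a < n) :
    blk σ N t = σ.symm ⟨a, ha⟩ := by
  unfold blk
  congr 1
  ext
  simp [h, Nat.mod_eq_of_lt ha]

theorem blk_block {σ : Equiv.Perm (Fin n)} {N m : ℕ} (hm : m < N) (j : Fin n) :
    blk σ N ((σ j).val * N + m) = j := by
  have h : ((σ j).val * N + m) / N = (σ j).val := by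
    rw [mul_comm, Nat.mul_add_div (by omega), Nat.div_eq_of_lt hm, add_zero]
  rw [blk_eq h (σ j).2]
  simp

theorem before {σ : Equiv.Perm (Fin n)} {N : ℕ} (j : Fin n) (t : ℕ) (ht : t ≤ (σ j).val * N) :
    (∀ i, σ j ≤ σ i → (run A (inp σ) (blk σ N) ω t).loc i = A.start i (inp σ i) ∧
      (run A (inp σ) (blk σ N) ω t).used i = 0) ∧
    ∀ r, σ j ≤ σ (A.writer r) → (run A (inp σ) (blk σ N) ω t).mem r = A.init r := by
  induction t with
  | zero => exact ⟨fun i _ => ⟨rfl, rfl⟩, fun r _ => rfl⟩
  | succ t ih =>
    obtain ⟨h1, h2⟩ := ih (by omega)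
    have hN : 0 < N := by
      rcases Nat.eq_zero_or_pos N with h | h
      · subst h; omega
      · exact h
    have hdiv : t / N < (σ j).val := by
      rw [Nat.div_lt_iff_lt_mul hN]; omega
    have hblk : σ (blk σ N t) < σ j := by
      rw [blk_eq rfl (lt_trans hdiv (σ j).2), Equiv.apply_symm_apply, Fin.lt_def]
      exact hdiv
    refine ⟨fun i hi => ?_, fun r hr => ?_⟩
    · have hne : i ≠ blk σ N t := by
        rintro rfl
        exact absurd hblk (not_lt.2 hi)
      obtain ⟨h3, h4⟩ := h1 i hi
      refine ⟨?_, ?_⟩
      · change (step A ω _ _).loc i = _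
        rw [step_loc_ne _ hne]; exact h3
      · change (step A ω _ _).used i = _
        rw [step_used_ne _ hne]; exact h4
    · have hne : A.writer r ≠ blk σ N t := by
        intro h
        rw [h] at hr
        exact absurd hblk (not_lt.2 hr)
      change (step A ω _ _).mem r = _
      rw [step_mem_ne _ hne]; exact h2 r hr

/-- As long as `j` does not read a register written by an earlier processor, its block looks like
its solo run. -/
theorem coincide {σ : Equiv.Perm (Fin n)} {N : ℕ} (j : Fin n) (m : ℕ) (hm : m ≤ N)
    (hno : ∀ m' < m, ∀ r next, A.act j ((solo A j (inp σ j) ω m').loc j) = .read r next →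
      ¬ σ (A.writer r) < σ j) :
    (run A (inp σ) (blk σ N) ω ((σ j).val * N + m)).loc j = (solo A j (inp σ j) ω m).loc j ∧
    (run A (inp σ) (blk σ N) ω ((σ j).val * N + m)).used j = (solo A j (inp σ j) ω m).used j ∧
    ∀ r, A.writer r ∉ (Finset.univ.filter (fun i => σ i < σ j)) →
      (run A (inp σ) (blk σ N) ω ((σ j).val * N + m)).mem r = (solo A j (inp σ j) ω m).mem r := by
  induction m with
  | zero =>
    obtain ⟨h1, h2⟩ := before (A := A) (ω := ω) (N := N) (σ := σ) j _ le_rfl
    obtain ⟨h3, h4⟩ := h1 j le_rfl
    refine ⟨h3, h4, fun r hr => ?_⟩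
    rw [Finset.mem_filter] at hr
    push Not at hr
    exact h2 r (hr (Finset.mem_univ _))
  | succ m ih =>
    obtain ⟨h1, h2, h3⟩ := ih (by omega) (fun m' hm' => hno m' (by omega))
    have hs : blk σ N ((σ j).val * N + m) = j := blk_block (by omega) j
    have key := step_agree (ω := ω) h1 h2 h3 (fun r next h => by
      rw [Finset.mem_filter]
      push Not
      intro _
      exact not_lt.1 (hno m (by omega) r next h))
    have e1 : run A (inp σ) (blk σ N) ω ((σ j).val * N + (m + 1)) =
        step A ω (run A (inp σ) (blk σ N) ω ((σ j).val * N + m)) j := by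
      change step A ω (run A (inp σ) (blk σ N) ω ((σ j).val * N + m))
        (blk σ N ((σ j).val * N + m)) = _
      rw [hs]
    rw [e1]
    exact key

/-- The distinct writers, other than `j`, of the registers read in the first steps of the solo
run of `j`. -/
noncomputable def dl (A : Algorithm n) (j : Fin n) (x : Bool) (ω : Tapes n) : ℕ → List (Fin n)
  | 0 => []
  | m + 1 => match A.act j ((solo A j x ω m).loc j) with
    | .read r _ => if A.writer r ∈ dl A j x ω m ∨ A.writer r = j then dl A j x ω m
        else dl A j x ω m ++ [A.writer r]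
    | _ => dl A j x ω m

theorem dl_cases (A : Algorithm n) (j : Fin n) (x : Bool) (ω : Tapes n) (m : ℕ) :
    dl A j x ω (m + 1) = dl A j x ω m ∨
      ∃ r next, A.act j ((solo A j x ω m).loc j) = .read r next ∧ A.writer r ≠ j ∧
        A.writer r ∉ dl A j x ω m ∧ dl A j x ω (m + 1) = dl A j x ω m ++ [A.writer r] := by
  rw [dl]
  cases hact : A.act j ((solo A j x ω m).loc j) with
  | read r next =>
    by_cases h : A.writer r ∈ dl A j x ω m ∨ A.writer r = j
    · left; simp [h]
    · right
      push Not at h
      exact ⟨r, next, rfl, h.2, h.1, by simp [h]⟩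
  | flip next => left; rfl
  | write r v next => left; rfl
  | output b => left; rfl

theorem dl_nodup (j : Fin n) (x : Bool) (m : ℕ) :
    (dl A j x ω m).Nodup ∧ j ∉ dl A j x ω m := by
  induction m with
  | zero => exact ⟨List.nodup_nil, List.not_mem_nil⟩
  | succ m ih =>
    rcases dl_cases A j x ω m with h | ⟨r, next, _, h2, h3, h4⟩
    · rw [h]; exact ih
    · rw [h4]
      refine ⟨?_, ?_⟩
      · rw [List.nodup_append]
        refine ⟨ih.1, by simp, ?_⟩
        intro a ha b hb
        rw [List.mem_singleton] at hb
        subst hb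
        rintro rfl
        exact h3 ha
      · simp only [List.mem_append, List.mem_singleton, not_or]
        exact ⟨ih.2, Ne.symm h2⟩

theorem dl_prefix (j : Fin n) (x : Bool) {m m' : ℕ} (h : m ≤ m') :
    dl A j x ω m <+: dl A j x ω m' := by
  induction m', h using Nat.le_induction with
  | base => exact List.prefix_refl _
  | succ m' _ ih =>
    rcases dl_cases A j x ω m' with h | ⟨r, next, _, _, _, h4⟩
    · rw [h]; exact ih
    · rw [h4]; exact ih.trans (List.prefix_append _ _)

theorem dl_length (j : Fin n) (x : Bool) (m : ℕ) :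
    (dl A j x ω m).length ≤ ∑ m' ∈ Finset.range m, isRead (solo A j x ω m') j := by
  induction m with
  | zero => simp [dl]
  | succ m ih =>
    rw [Finset.sum_range_succ]
    rcases dl_cases A j x ω m with h | ⟨r, next, h1, _, _, h4⟩
    · rw [h]; omega
    · rw [h4, List.length_append, List.length_singleton]
      have : isRead (solo A j x ω m) j = 1 := by
        unfold isRead; rw [h1]
      omega

theorem dl_mem {j : Fin n} {x : Bool} {m : ℕ} {r : A.Reg} {next : A.Val → A.Loc}
    (h : A.act j ((solo A j x ω m).loc j) = .read r next) (hr : A.writer r ≠ j) :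
    A.writer r ∈ dl A j x ω (m + 1) := by
  rw [dl, h]
  simp only
  split_ifs with h'
  · rcases h' with h' | h'
    · exact h'
    · exact absurd h' hr
  · simp

/-- If no writer read before time `m` of the solo run is earlier than `j`, the block of `j`
coincides with its solo run up to time `m`. -/
theorem coincide' {σ : Equiv.Perm (Fin n)} {N : ℕ} (j : Fin n) (m : ℕ) (hm : m ≤ N)
    (hno : ∀ i ∈ dl A j (inp σ j) ω m, ¬ σ i < σ j) :
    (run A (inp σ) (blk σ N) ω ((σ j).val * N + m)).loc j = (solo A j (inp σ j) ω m).loc j := by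
  refine (coincide j m hm ?_).1
  intro m' hm' r next hact hlt
  have hne : A.writer r ≠ j := by
    intro h
    rw [h] at hlt
    exact lt_irrefl _ hlt
  exact hno _ ((dl_prefix j (inp σ j) (by omega : m' + 1 ≤ m)).subset (dl_mem hact hne)) hlt

/-- The number of reads in the block of `j`. -/
theorem block_reads {σ : Equiv.Perm (Fin n)} {N : ℕ} {j : Fin n}
    (hgood : ∃ i ∈ dl A j (inp σ j) ω N, σ i < σ j) {l : List (Fin n)}
    (hl : dl A j (inp σ j) ω N <+: l) {r : ℕ} (hr : ∀ i ∈ l.take r, σ j < σ i) :
    r + 1 ≤ ∑ m ∈ Finset.range N,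
      isRead (run A (inp σ) (blk σ N) ω ((σ j).val * N + m)) j := by
  classical
  have hex : ∃ m, ∃ i ∈ dl A j (inp σ j) ω m, σ i < σ j := ⟨N, hgood⟩
  have hspec := Nat.find_spec hex
  have hmin : ∀ m < Nat.find hex, ¬ ∃ i ∈ dl A j (inp σ j) ω m, σ i < σ j :=
    fun m hm => Nat.find_min hex hm
  have hle : Nat.find hex ≤ N := Nat.find_min' hex hgood
  obtain ⟨k, hk⟩ : ∃ k, Nat.find hex = k + 1 := by
    rcases Nat.eq_zero_or_pos (Nat.find hex) with h | h
    · rw [h] at hspec
      obtain ⟨i, hi, _⟩ := hspec
      exact absurd hi List.not_mem_nil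
    · exact ⟨Nat.find hex - 1, by omega⟩
  rw [hk] at hspec hmin hle
  have hk0 : ∀ i ∈ dl A j (inp σ j) ω k, ¬ σ i < σ j := by
    intro i hi hlt
    exact hmin k (Nat.lt_succ_self k) ⟨i, hi, hlt⟩
  obtain ⟨i0, hi0, hi0lt⟩ := hspec
  rcases dl_cases A j (inp σ j) ω k with h | ⟨r0, next, h1, h2, h3, h4⟩
  · rw [h] at hi0
    exact absurd hi0lt (hk0 i0 hi0)
  · have hi0' : i0 = A.writer r0 := by
      rw [h4, List.mem_append, List.mem_singleton] at hi0
      rcases hi0 with h | h
      · exact absurd hi0lt (hk0 i0 h)
      · exact h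
    have hrle : r ≤ (dl A j (inp σ j) ω k).length := by
      by_contra hcon
      rw [not_le] at hcon
      have hpre : dl A j (inp σ j) ω (k + 1) <+: l := (dl_prefix j (inp σ j) hle).trans hl
      have hlen : (dl A j (inp σ j) ω (k + 1)).length ≤ r := by
        rw [h4, List.length_append, List.length_singleton]; omega
      have hmem : i0 ∈ l.take r := by
        have h5 : dl A j (inp σ j) ω (k + 1) = l.take (dl A j (inp σ j) ω (k + 1)).length :=
          (List.prefix_iff_eq_take.1 hpre)
        have h6 : i0 ∈ l.take (dl A j (inp σ j) ω (k + 1)).length := by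
          rw [← h5, h4, hi0']
          simp
        exact (List.take_subset_take_left l hlen) h6
      exact absurd (hr i0 hmem) (not_lt.2 hi0lt.le)
    have hsame : ∀ m ≤ k, isRead (run A (inp σ) (blk σ N) ω ((σ j).val * N + m)) j =
        isRead (solo A j (inp σ j) ω m) j := by
      intro m hm
      apply isRead_congr
      refine coincide' j m (by omega) ?_
      intro i hi
      exact hk0 i ((dl_prefix j (inp σ j) hm).subset hi)
    calc r + 1 ≤ (dl A j (inp σ j) ω k).length + 1 := by omega
      _ ≤ ∑ m' ∈ Finset.range k, isRead (solo A j (inp σ j) ω m') j + 1 := by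
          have := dl_length (A := A) (ω := ω) j (inp σ j) k
          omega
      _ = ∑ m' ∈ Finset.range (k + 1), isRead (solo A j (inp σ j) ω m') j := by
          rw [Finset.sum_range_succ]
          have : isRead (solo A j (inp σ j) ω k) j = 1 := by
            unfold isRead; rw [h1]
          omega
      _ = ∑ m ∈ Finset.range (k + 1),
            isRead (run A (inp σ) (blk σ N) ω ((σ j).val * N + m)) j := by
          refine Finset.sum_congr rfl (fun m hm => (hsame m ?_).symm)
          have := Finset.mem_range.1 hm
          omega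
      _ ≤ _ := Finset.sum_le_sum_of_subset (Finset.range_mono hle)

/-- On good coins every processor but the first reads a register of an earlier one in its block. -/
theorem exists_hit {σ : Equiv.Perm (Fin n)} {N : ℕ}
    (hsafe : ∀ t i x, (run A (inp σ) (blk σ N) ω t).out i = some x →
      ∀ j y, (run A (inp σ) (blk σ N) ω t).out j = some y → y = x)
    (hhalt : ∀ i x, (solo A i x ω N).out i = some x) {j : Fin n} (hj : σ j ≠ 0) :
    ∃ i ∈ dl A j (inp σ j) ω N, σ i < σ j := by
  by_contra hcon
  push Not at hcon
  have h1 := coincide' (A := A) (ω := ω) (σ := σ) (N := N) j N le_rfl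
    (fun i hi => not_lt.2 (hcon i hi))
  have h2 : (run A (inp σ) (blk σ N) ω ((σ j).val * N + N)).out j = some true := by
    rw [out_congr h1]
    have : inp σ j = true := by simp [inp, hj]
    rw [this]
    exact hhalt j true
  set f := σ.symm 0 with hf
  have hσf : σ f = 0 := by simp [hf]
  have h3 := coincide' (A := A) (ω := ω) (σ := σ) (N := N) f N le_rfl (fun i _ => by
    rw [hσf, not_lt]; exact Fin.zero_le _)
  have h4 : (run A (inp σ) (blk σ N) ω ((σ f).val * N + N)).out f = some false := by
    rw [out_congr h3]
    have : inp σ f = false := by simp [inp, hσf]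
    rw [this]
    exact hhalt f false
  have h5 : (run A (inp σ) (blk σ N) ω ((σ j).val * N + N)).out f = some false := by
    refine out_run h4 _ ?_
    rw [hσf]
    simp
  have := hsafe _ _ _ h2 _ _ h5
  simp at this

end Pool.Agent.H46.Cons
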