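import Pool.Agent.H46.Cons.Block

/-!
# Averaging over the order of the blocks
-/

set_option linter.unusedSectionVars false

namespace Pool.Agent.H46.Cons

open MeasureTheory

variable {n : ℕ}

/-- The number of orders in which `j` precedes all of `R` is `n! / (|R| + 1)`. -/
theorem count_first (j : Fin n) (R : Finset (Fin n)) (hj : j ∉ R) :
    (Finset.univ.filter (fun σ : Equiv.Perm (Fin n) => ∀ i ∈ R, σ j < σ i)).card * (R.card + 1) =
      n.factorial := by
  classical
  set S := insert j R with hS
  have hcardS : S.card = R.card + 1 := Finset.card_insert_of_notMem hj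
  set F : Fin n → Finset (Equiv.Perm (Fin n)) :=
    fun k => Finset.univ.filter (fun σ => ∀ i ∈ S, i ≠ k → σ k < σ i) with hF
  have hall : ∀ k ∈ S, (F k).card = (F j).card := by
    intro k hk
    refine Finset.card_bij' (fun σ _ => σ * Equiv.swap j k) (fun σ _ => σ * Equiv.swap j k)
      ?_ ?_ ?_ ?_
    · intro σ hσ
      rw [hF, Finset.mem_filter] at hσ ⊢
      refine ⟨Finset.mem_univ _, ?_⟩
      intro i hi hij
      simp only [Equiv.Perm.coe_mul, Function.comp, Equiv.swap_apply_left]
      by_cases hik : i = k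
      · subst hik
        rw [Equiv.swap_apply_right]
        exact hσ.2 j (Finset.mem_insert_self _ _) (Ne.symm hij)
      · rw [Equiv.swap_apply_of_ne_of_ne hij hik]
        exact hσ.2 i hi hik
    · intro σ hσ
      rw [hF, Finset.mem_filter] at hσ ⊢
      refine ⟨Finset.mem_univ _, ?_⟩
      intro i hi hik
      simp only [Equiv.Perm.coe_mul, Function.comp, Equiv.swap_apply_right]
      by_cases hij : i = j
      · subst hij
        rw [Equiv.swap_apply_left]
        exact hσ.2 k hk (Ne.symm hik)
      · rw [Equiv.swap_apply_of_ne_of_ne hij hik]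
        exact hσ.2 i hi hij
    · intro σ _
      simp [mul_assoc]
    · intro σ _
      simp [mul_assoc]
  have hdisj : ∀ k ∈ S, ∀ k' ∈ S, k ≠ k' → Disjoint (F k) (F k') := by
    intro k hk k' hk' hne
    rw [Finset.disjoint_left]
    intro σ h1 h2
    rw [hF, Finset.mem_filter] at h1 h2
    have h3 := h1.2 k' hk' (Ne.symm hne)
    have h4 := h2.2 k hk hne
    exact absurd h3 (not_lt.2 h4.le)
  have hun : S.biUnion F = Finset.univ := by
    ext σ
    simp only [Finset.mem_biUnion, Finset.mem_univ, iff_true]
    obtain ⟨k, hk, hmin⟩ := Finset.exists_min_image S σ ⟨j, Finset.mem_insert_self _ _⟩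
    refine ⟨k, hk, ?_⟩
    rw [hF, Finset.mem_filter]
    refine ⟨Finset.mem_univ _, ?_⟩
    intro i hi hik
    refine lt_of_le_of_ne (hmin i hi) ?_
    intro h
    exact hik (σ.injective h).symm
  have hcard : (S.biUnion F).card = ∑ k ∈ S, (F k).card := Finset.card_biUnion hdisj
  rw [hun, Finset.card_univ, Fintype.card_perm, Fintype.card_fin, Finset.sum_congr rfl hall,
    Finset.sum_const, smul_eq_mul, hcardS] at hcard
  rw [hcard, mul_comm]
  congr 2
  ext σ
  simp only [hF, Finset.mem_filter, Finset.mem_univ, true_and]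
  constructor
  · intro h i hi hij
    rcases Finset.mem_insert.1 hi with h' | h'
    · exact absurd h' hij
    · exact h i h'
  · intro h i hi
    refine h i (Finset.mem_insert_of_mem hi) ?_
    rintro rfl
    exact hj hi

variable [NeZero n] {A : Algorithm n}

/-- A full ordering of the other processors extending the order in which they are met. -/
noncomputable def full (A : Algorithm n) (j : Fin n) (x : Bool) (ω : Tapes n) (N : ℕ) :
    List (Fin n) :=
  dl A j x ω N ++ (Finset.univ.filter (fun i => i ∉ dl A j x ω N ∧ i ≠ j)).toList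

theorem full_nodup (j : Fin n) (x : Bool) (ω : Tapes n) (N : ℕ) :
    (full A j x ω N).Nodup ∧ j ∉ full A j x ω N ∧ (full A j x ω N).length = n - 1 := by
  classical
  obtain ⟨h1, h2⟩ := dl_nodup (A := A) (ω := ω) j x N
  have hnd : (full A j x ω N).Nodup := by
    unfold full
    rw [List.nodup_append]
    refine ⟨h1, Finset.nodup_toList _, ?_⟩
    intro a ha b hb
    rw [Finset.mem_toList, Finset.mem_filter] at hb
    rintro rfl
    exact hb.2.1 ha
  have hj : j ∉ full A j x ω N := by
    unfold full
    rw [List.mem_append, not_or]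
    refine ⟨h2, ?_⟩
    rw [Finset.mem_toList, Finset.mem_filter]
    intro h
    exact h.2.2 rfl
  refine ⟨hnd, hj, ?_⟩
  have h3 : (full A j x ω N).toFinset = Finset.univ.erase j := by
    ext i
    simp only [List.mem_toFinset, Finset.mem_erase, Finset.mem_univ, and_true]
    constructor
    · rintro h rfl
      exact hj h
    · intro h
      unfold full
      rw [List.mem_append, Finset.mem_toList, Finset.mem_filter]
      by_cases h' : i ∈ dl A j x ω N
      · exact Or.inl h'
      · exact Or.inr ⟨Finset.mem_univ _, h', h⟩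
  rw [← List.toFinset_card_of_nodup hnd, h3, Finset.card_erase_of_mem (Finset.mem_univ _),
    Finset.card_univ, Fintype.card_fin]

/-- Total number of reads in the blocks. -/
noncomputable def total (A : Algorithm n) (σ : Equiv.Perm (Fin n)) (N : ℕ) (ω : Tapes n) : ℕ :=
  ∑ j, ∑ m ∈ Finset.range N, isRead (run A (inp σ) (blk σ N) ω ((σ j).val * N + m)) j

theorem sum_blocks (f : ℕ → ℕ) (N a : ℕ) :
    ∑ t ∈ Finset.range (a * N), f t =
      ∑ k ∈ Finset.range a, ∑ m ∈ Finset.range N, f (k * N + m) := by
  induction a with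
  | zero => simp
  | succ a ih =>
    rw [Finset.sum_range_succ, ← ih, Nat.succ_mul, Finset.sum_range_add]

theorem total_eq (A : Algorithm n) (σ : Equiv.Perm (Fin n)) (N : ℕ) (ω : Tapes n) :
    ∑ t ∈ Finset.range (n * N), isRead (run A (inp σ) (blk σ N) ω t) (blk σ N t) =
      total A σ N ω := by
  rw [sum_blocks, total, Finset.sum_range
    (fun k => ∑ m ∈ Finset.range N, isRead (run A (inp σ) (blk σ N) ω (k * N + m))
      (blk σ N (k * N + m))), ← Equiv.sum_comp σ]
  refine Finset.sum_congr rfl (fun j _ => Finset.sum_congr rfl (fun m hm => ?_))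
  rw [blk_block (Finset.mem_range.1 hm)]

/-- Good coins: all solo runs output their input within `N` steps. -/
def Good (A : Algorithm n) (N : ℕ) (ω : Tapes n) : Prop :=
  ∀ i x, (solo A i x ω N).out i = some x

theorem total_ge {σ : Equiv.Perm (Fin n)} {N : ℕ} {ω : Tapes n} (hg : Good A N ω)
    (hsafe : ∀ t i x, (run A (inp σ) (blk σ N) ω t).out i = some x →
      ∀ j y, (run A (inp σ) (blk σ N) ω t).out j = some y → y = x) :
    ∑ j, ∑ r ∈ Finset.range (n - 1),
      (if σ j ≠ 0 ∧ ∀ i ∈ (full A j true ω N).take r, σ j < σ i then 1 else 0) ≤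
      total A σ N ω := by
  classical
  unfold total
  refine Finset.sum_le_sum (fun j _ => ?_)
  by_cases hj : σ j = 0
  · simp [hj]
  · have hx : inp σ j = true := by simp [inp, hj]
    have hhit := exists_hit hsafe hg hj
    rw [← Finset.sum_filter, Finset.sum_const, smul_eq_mul, mul_one]
    have hsub : (Finset.range (n - 1)).filter
        (fun r => σ j ≠ 0 ∧ ∀ i ∈ (full A j true ω N).take r, σ j < σ i) ⊆
        Finset.range (∑ m ∈ Finset.range N,
          isRead (run A (inp σ) (blk σ N) ω ((σ j).val * N + m)) j) := by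
      intro r hr
      rw [Finset.mem_filter] at hr
      rw [Finset.mem_range]
      refine block_reads hhit (l := full A j true ω N) ?_ hr.2.2
      rw [hx]
      exact List.prefix_append _ _
    have := Finset.card_le_card hsub
    rwa [Finset.card_range] at this

/-- The averaged count. -/
theorem sum_count (A : Algorithm n) (N : ℕ) (ω : Tapes n) :
    ((n.factorial : ℕ) : ℝ) * (n * ((harmonic n : ℚ) : ℝ) - n) ≤
      ∑ σ : Equiv.Perm (Fin n), ∑ j, ∑ r ∈ Finset.range (n - 1),
        (if σ j ≠ 0 ∧ ∀ i ∈ (full A j true ω N).take r, σ j < σ i then (1 : ℝ) else 0) := by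
  classical
  obtain ⟨k, hk⟩ : ∃ k, n = k + 1 := ⟨n - 1, by have := NeZero.pos n; omega⟩
  have hterm : ∀ j : Fin n, ∀ r ∈ Finset.range (n - 1),
      (n.factorial : ℝ) / (r + 1) - (n.factorial : ℝ) / n ≤ ∑ σ : Equiv.Perm (Fin n),
        (if σ j ≠ 0 ∧ ∀ i ∈ (full A j true ω N).take r, σ j < σ i then (1 : ℝ) else 0) := by
    intro j r hr
    rw [Finset.mem_range] at hr
    obtain ⟨hnd, hjn, hlen⟩ := full_nodup (A := A) j true ω N
    set R := ((full A j true ω N).take r).toFinset with hR
    have hRcard : R.card = r := by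
      rw [hR, List.toFinset_card_of_nodup (hnd.sublist (List.take_sublist _ _)),
        List.length_take, hlen]
      omega
    have hjR : j ∉ R := by
      rw [hR, List.mem_toFinset]
      intro h
      exact hjn (List.mem_of_mem_take h)
    have h1 := count_first j R hjR
    have h2 := count_first j (Finset.univ.erase j) (Finset.notMem_erase _ _)
    rw [Finset.card_erase_of_mem (Finset.mem_univ _), Finset.card_univ, Fintype.card_fin] at h2
    have hn1 : n - 1 + 1 = n := by omega
    rw [hn1] at h2
    rw [hRcard] at h1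
    rw [← Finset.sum_filter, Finset.sum_const, nsmul_eq_mul, mul_one]
    have hsub : (Finset.univ.filter (fun σ : Equiv.Perm (Fin n) => ∀ i ∈ R, σ j < σ i)) ⊆
        (Finset.univ.filter (fun σ : Equiv.Perm (Fin n) =>
          σ j ≠ 0 ∧ ∀ i ∈ (full A j true ω N).take r, σ j < σ i)) ∪
        (Finset.univ.filter (fun σ : Equiv.Perm (Fin n) =>
          ∀ i ∈ Finset.univ.erase j, σ j < σ i)) := by
      intro σ hσ
      rw [Finset.mem_filter] at hσ
      rw [Finset.mem_union, Finset.mem_filter, Finset.mem_filter]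
      by_cases h0 : σ j = 0
      · right
        refine ⟨Finset.mem_univ _, ?_⟩
        intro i hi
        have hne : i ≠ j := (Finset.mem_erase.1 hi).1
        rw [h0]
        refine lt_of_le_of_ne (Fin.zero_le _) ?_
        intro h
        apply hne
        apply σ.injective
        rw [← h, h0]
      · left
        refine ⟨Finset.mem_univ _, h0, ?_⟩
        intro i hi
        exact hσ.2 i (by rw [hR, List.mem_toFinset]; exact hi)
    have h3 := (Finset.card_le_card hsub).trans (Finset.card_union_le _ _)
    have h3' : ((Finset.univ.filter (fun σ : Equiv.Perm (Fin n) =>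
        ∀ i ∈ R, σ j < σ i)).card : ℝ) ≤
        ((Finset.univ.filter (fun σ : Equiv.Perm (Fin n) =>
          σ j ≠ 0 ∧ ∀ i ∈ (full A j true ω N).take r, σ j < σ i)).card : ℝ) +
        ((Finset.univ.filter (fun σ : Equiv.Perm (Fin n) =>
          ∀ i ∈ Finset.univ.erase j, σ j < σ i)).card : ℝ) := by exact_mod_cast h3
    have e1 : ((Finset.univ.filter (fun σ : Equiv.Perm (Fin n) =>
        ∀ i ∈ R, σ j < σ i)).card : ℝ) = (n.factorial : ℝ) / (r + 1) := by
      rw [eq_div_iff (by positivity)]
      exact_mod_cast h1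
    have hn0 : (n : ℝ) ≠ 0 := by
      have := NeZero.ne n
      exact_mod_cast this
    have e2 : ((Finset.univ.filter (fun σ : Equiv.Perm (Fin n) =>
        ∀ i ∈ Finset.univ.erase j, σ j < σ i)).card : ℝ) = (n.factorial : ℝ) / n := by
      rw [eq_div_iff hn0]
      exact_mod_cast h2
    linarith
  calc ((n.factorial : ℕ) : ℝ) * (n * ((harmonic n : ℚ) : ℝ) - n)
      = ∑ j : Fin n, ∑ r ∈ Finset.range (n - 1),
          ((n.factorial : ℝ) / (r + 1) - (n.factorial : ℝ) / n) := by
        rw [Finset.sum_const, Finset.card_univ, Fintype.card_fin, nsmul_eq_mul,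
          Finset.sum_sub_distrib, Finset.sum_const, Finset.card_range, nsmul_eq_mul]
        have h1 : ∑ r ∈ Finset.range (n - 1), (n.factorial : ℝ) / ((r : ℝ) + 1) =
            (n.factorial : ℝ) * ((harmonic (n - 1) : ℚ) : ℝ) := by
          rw [harmonic]
          push_cast
          rw [Finset.mul_sum]
          refine Finset.sum_congr rfl (fun r _ => ?_)
          rw [div_eq_mul_inv]
        rw [h1, hk]
        simp only [Nat.add_sub_cancel]
        rw [harmonic_succ]
        push_cast
        have : (k : ℝ) + 1 ≠ 0 := by positivity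
        field_simp
        ring
    _ ≤ ∑ j : Fin n, ∑ r ∈ Finset.range (n - 1), ∑ σ : Equiv.Perm (Fin n),
        (if σ j ≠ 0 ∧ ∀ i ∈ (full A j true ω N).take r, σ j < σ i then (1 : ℝ) else 0) :=
        Finset.sum_le_sum (fun j _ => Finset.sum_le_sum (hterm j))
    _ = ∑ j : Fin n, ∑ σ : Equiv.Perm (Fin n), ∑ r ∈ Finset.range (n - 1),
        (if σ j ≠ 0 ∧ ∀ i ∈ (full A j true ω N).take r, σ j < σ i then (1 : ℝ) else 0) :=
        Finset.sum_congr rfl (fun j _ => Finset.sum_comm)
    _ = _ := Finset.sum_comm

/-- The averaged number of reads. -/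
theorem sum_total {N : ℕ} {ω : Tapes n} (hg : Good A N ω)
    (hsafe : ∀ σ : Equiv.Perm (Fin n), ∀ t i x,
      (run A (inp σ) (blk σ N) ω t).out i = some x →
      ∀ j y, (run A (inp σ) (blk σ N) ω t).out j = some y → y = x) :
    ((n.factorial : ℕ) : ℝ) * (n * ((harmonic n : ℚ) : ℝ) - n) ≤
      ∑ σ : Equiv.Perm (Fin n), (total A σ N ω : ℝ) := by
  classical
  refine (sum_count A N ω).trans (Finset.sum_le_sum (fun σ _ => ?_))
  have h := total_ge hg (hsafe σ)
  have h' : ((∑ j, ∑ r ∈ Finset.range (n - 1),
      (if σ j ≠ 0 ∧ ∀ i ∈ (full A j true ω N).take r, σ j < σ i then 1 else 0) : ℕ) : ℝ) ≤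
      total A σ N ω := by exact_mod_cast h
  refine le_trans (le_of_eq ?_) h'
  push_cast
  rfl

end Pool.Agent.H46.Cons
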