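import Pool.Agent.H46.Cons.Model

/-!
# Executions
-/

namespace Pool.Agent.H46.Cons

open MeasureTheory

variable {n : ℕ} {A : Algorithm n} {ω : Tapes n}

theorem step_loc_ne (c : Config A) {i k : Fin n} (h : k ≠ i) :
    (step A ω c i).loc k = c.loc k := by
  unfold step
  cases A.act i (c.loc i) <;> simp [Function.update_of_ne h]

theorem step_used_ne (c : Config A) {i k : Fin n} (h : k ≠ i) :
    (step A ω c i).used k = c.used k := by
  unfold step
  cases A.act i (c.loc i) <;> simp [Function.update_of_ne h]

theorem step_mem_ne (c : Config A) {i : Fin n} {r : A.Reg} (h : A.writer r ≠ i) :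
    (step A ω c i).mem r = c.mem r := by
  unfold step
  cases hact : A.act i (c.loc i) with
  | flip next => rfl
  | read r' next => rfl
  | write r' v next =>
    have hw := A.write_own i _ r' v next hact
    have hne : r ≠ r' := by
      rintro rfl
      exact h hw
    classical
    exact Function.update_of_ne hne _ _
  | output b => rfl

theorem step_of_out {c : Config A} {i : Fin n} {x : Bool} (h : c.out i = some x) :
    step A ω c i = c := by
  unfold Config.out at h
  unfold step
  cases hact : A.act i (c.loc i) with
  | output b => rfl
  | flip next => rw [hact] at h; simp at h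
  | read r' next => rw [hact] at h; simp at h
  | write r' v next => rw [hact] at h; simp at h

theorem out_congr {c d : Config A} {i : Fin n} (h : c.loc i = d.loc i) : c.out i = d.out i := by
  unfold Config.out; rw [h]

theorem isRead_congr {c d : Config A} {i : Fin n} (h : c.loc i = d.loc i) :
    isRead c i = isRead d i := by
  unfold isRead; rw [h]

theorem out_step {c : Config A} {i k : Fin n} {x : Bool} (h : c.out i = some x) :
    (step A ω c k).out i = some x := by
  by_cases hk : k = i
  · subst hk
    rw [step_of_out h]; exact h
  · rw [out_congr (step_loc_ne c (Ne.symm hk))]; exact h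

theorem out_run {b : Fin n → Bool} {s : ℕ → Fin n} {i : Fin n} {x : Bool} {t : ℕ}
    (h : (run A b s ω t).out i = some x) : ∀ t', t ≤ t' → (run A b s ω t').out i = some x := by
  intro t' ht
  induction t', ht using Nat.le_induction with
  | base => exact h
  | succ t' _ ih => exact out_step ih

/-- Two configurations which look the same to `j`, apart from registers written by `S`, still do
after a step of `j` which does not read such a register. -/
theorem step_agree {S : Finset (Fin n)} {j : Fin n} {c d : Config A}
    (hl : c.loc j = d.loc j) (hu : c.used j = d.used j)
    (hm : ∀ r, A.writer r ∉ S → c.mem r = d.mem r)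
    (hr : ∀ r next, A.act j (d.loc j) = .read r next → A.writer r ∉ S) :
    (step A ω c j).loc j = (step A ω d j).loc j ∧ (step A ω c j).used j = (step A ω d j).used j ∧
      ∀ r, A.writer r ∉ S → (step A ω c j).mem r = (step A ω d j).mem r := by
  unfold step
  rw [hl]
  cases hact : A.act j (d.loc j) with
  | flip next =>
    refine ⟨?_, ?_, hm⟩
    · simp [hu]
    · simp [hu]
  | read r next =>
    refine ⟨?_, hu, hm⟩
    simp [hm r (hr r next hact)]
  | write r v next =>
    refine ⟨by simp, hu, ?_⟩
    intro r' hr'
    by_cases h : r' = r
    · subst h; simp
    · classical
      change Function.update c.mem r v r' = Function.update d.mem r v r'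
      rw [Function.update_of_ne h, Function.update_of_ne h]
      exact hm r' hr'
  | output b => exact ⟨hl, hu, hm⟩

/-- The configuration after `t` steps depends only on the first `t` coins of each processor. -/
theorem run_congr {b : Fin n → Bool} {s : ℕ → Fin n} {ω ω' : Tapes n} {t : ℕ}
    (h : ∀ i m, m < t → ω i m = ω' i m) :
    run A b s ω t = run A b s ω' t ∧ ∀ i, (run A b s ω t).used i ≤ t := by
  induction t with
  | zero => exact ⟨rfl, fun i => le_refl 0⟩
  | succ t ih =>
    obtain ⟨h1, h2⟩ := ih (fun i m hm => h i m (by omega))
    have h3 := h2 (s t)
    refine ⟨?_, ?_⟩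
    · change step A ω (run A b s ω t) (s t) = step A ω' (run A b s ω' t) (s t)
      rw [← h1]
      unfold step
      cases hact : A.act (s t) ((run A b s ω t).loc (s t)) with
      | flip next =>
        simp only
        rw [h (s t) _ (by omega)]
      | read r next => rfl
      | write r v next => rfl
      | output b => rfl
    · intro i
      change (step A ω (run A b s ω t) (s t)).used i ≤ t + 1
      by_cases hi : i = s t
      · subst hi
        unfold step
        cases hact : A.act (s t) ((run A b s ω t).loc (s t)) with
        | flip next => simp; exact h3
        | read r next => simp only; omega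
        | write r v next => simp only; omega
        | output b => simp only; omega
      · rw [step_used_ne _ hi]
        have := h2 i
        omega

/-- Functions of the configuration at time `t` are measurable. -/
theorem measurable_run {β : Type*} [MeasurableSpace β] (b : Fin n → Bool) (s : ℕ → Fin n) (t : ℕ)
    (F : Config A → β) : Measurable (fun ω => F (run A b s ω t)) := by
  classical
  set e : (Fin n → Fin t → Bool) → Tapes n :=
    fun a i m => if h : m < t then a i ⟨m, h⟩ else false with he
  have h1 : (fun ω => F (run A b s ω t)) =
      (fun a : Fin n → Fin t → Bool => F (run A b s (e a) t)) ∘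
        (fun (ω : Tapes n) (i : Fin n) (m : Fin t) => ω i m) := by
    funext ω
    simp only [Function.comp]
    congr 1
    refine (run_congr ?_).1
    intro i m hm
    simp [he, hm]
  rw [h1]
  refine Measurable.comp (measurable_of_countable _) ?_
  exact measurable_pi_lambda _ (fun i => measurable_pi_lambda _ (fun m =>
    (measurable_pi_apply (m : ℕ)).comp (measurable_pi_apply i)))

end Pool.Agent.H46.Cons
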