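import Pool.Agent.H46.Cons.Count

/-!
# The lower bound
-/

set_option linter.unusedSectionVars false

namespace Pool.Agent.H46.Cons

open MeasureTheory Filter
open scoped ENNReal Topology

variable {n : ℕ} [NeZero n] {A : Algorithm n}

theorem good_measurable (A : Algorithm n) (N : ℕ) : MeasurableSet {ω | Good A N ω} := by
  have : {ω | Good A N ω} = ⋂ i : Fin n, ⋂ x : Bool, {ω | (solo A i x ω N).out i = some x} := by
    ext ω; simp [Good]
  rw [this]
  refine MeasurableSet.iInter (fun i => MeasurableSet.iInter (fun x => ?_))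
  rw [measurableSet_setOfPred]
  exact measurable_run _ _ N (fun c => c.out i = some x)

theorem good_mono (A : Algorithm n) : Monotone (fun N => {ω | Good A N ω}) := by
  intro N N' h ω hω i x
  exact out_run (hω i x) N' h

theorem good_full (hA : A.Solves) : coins n (⋃ N, {ω | Good A N ω}) = 1 := by
  have hae : ∀ᵐ ω ∂(coins n), ∀ (i : Fin n) (x : Bool), ∃ t, (solo A i x ω t).out i = some x := by
    rw [ae_all_iff]
    intro i
    rw [ae_all_iff]
    intro x
    filter_upwards [hA.live (fun _ => x) (fun _ => i) i (Filter.Frequently.of_forall (fun _ => rfl)),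
      hA.safe (fun _ => x) (fun _ => i)] with ω h1 h2
    obtain ⟨t, y, hy⟩ := h1
    obtain ⟨⟨_, hk⟩, _⟩ := h2 t i y hy
    subst hk
    exact ⟨t, hy⟩
  have h1 : ∀ᵐ ω ∂(coins n), ω ∈ ⋃ N, {ω | Good A N ω} := by
    filter_upwards [hae] with ω hω
    choose t ht using hω
    rw [Set.mem_iUnion]
    refine ⟨∑ i, ∑ x, t i x, fun i x => ?_⟩
    refine out_run (ht i x) _ ?_
    calc t i x ≤ ∑ x, t i x := Finset.single_le_sum (f := fun x => t i x)
          (fun _ _ => Nat.zero_le _) (Finset.mem_univ x)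
      _ ≤ ∑ i, ∑ x, t i x := Finset.single_le_sum (f := fun i => ∑ x, t i x)
          (fun _ _ => Nat.zero_le _) (Finset.mem_univ i)
  exact (mem_ae_iff_prob_eq_one (MeasurableSet.iUnion (fun N => good_measurable A N))).1 h1

theorem total_measurable (A : Algorithm n) (σ : Equiv.Perm (Fin n)) (N : ℕ) :
    Measurable (fun ω => ((total A σ N ω : ℕ) : ℝ≥0∞)) := by
  unfold total
  have : (fun ω => ((∑ j, ∑ m ∈ Finset.range N,
      isRead (run A (inp σ) (blk σ N) ω ((σ j).val * N + m)) j : ℕ) : ℝ≥0∞)) =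
      fun ω => ∑ j, ∑ m ∈ Finset.range N,
        ((isRead (run A (inp σ) (blk σ N) ω ((σ j).val * N + m)) j : ℕ) : ℝ≥0∞) := by
    funext ω; push_cast; rfl
  rw [this]
  refine Finset.measurable_sum _ (fun j _ => Finset.measurable_sum _ (fun m _ => ?_))
  exact measurable_run _ _ _ (fun c => ((isRead c j : ℕ) : ℝ≥0∞))

theorem total_le (A : Algorithm n) (σ : Equiv.Perm (Fin n)) (N : ℕ) :
    ∫⁻ ω, ((total A σ N ω : ℕ) : ℝ≥0∞) ∂(coins n) ≤ expectedReads A (inp σ) (blk σ N) := by
  unfold expectedReads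
  refine lintegral_mono (fun ω => ?_)
  rw [← total_eq]
  push_cast
  exact ENNReal.sum_le_tsum _

/-- The lower bound for the expected number of reads. -/
theorem reads_lower (hA : A.Solves) :
    ENNReal.ofReal (n * (((harmonic n : ℚ) : ℝ) - 1)) ≤
      ⨆ (b : Fin n → Bool) (s : ℕ → Fin n), expectedReads A b s := by
  classical
  set S := ⨆ (b : Fin n → Bool) (s : ℕ → Fin n), expectedReads A b s with hS
  set c : ℝ := n * (((harmonic n : ℚ) : ℝ) - 1) with hc
  have hfac0 : ((n.factorial : ℕ) : ℝ≥0∞) ≠ 0 := by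
    have := Nat.factorial_ne_zero n
    exact_mod_cast this
  have hfact : ((n.factorial : ℕ) : ℝ≥0∞) ≠ ⊤ := ENNReal.natCast_ne_top _
  have hN : ∀ N, ENNReal.ofReal c * coins n {ω | Good A N ω} ≤ S := by
    intro N
    have hsafe : ∀ᵐ ω ∂(coins n), ∀ σ : Equiv.Perm (Fin n), ∀ t i x,
        (run A (inp σ) (blk σ N) ω t).out i = some x →
        ∀ j y, (run A (inp σ) (blk σ N) ω t).out j = some y → y = x := by
      rw [ae_all_iff]
      intro σ
      filter_upwards [hA.safe (inp σ) (blk σ N)] with ω h t i x hx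
      exact (h t i x hx).2
    have h1 : ∀ᵐ ω ∂(coins n), Set.indicator {ω | Good A N ω}
        (fun _ => ((n.factorial : ℕ) : ℝ≥0∞) * ENNReal.ofReal c) ω ≤
        ∑ σ : Equiv.Perm (Fin n), ((total A σ N ω : ℕ) : ℝ≥0∞) := by
      filter_upwards [hsafe] with ω hω
      by_cases hg : Good A N ω
      · rw [Set.indicator_of_mem (by exact hg)]
        have h2 := sum_total hg hω
        have h3 : ((n.factorial : ℕ) : ℝ) * (n * ((harmonic n : ℚ) : ℝ) - n) =
            ((n.factorial : ℕ) : ℝ) * c := by rw [hc]; ring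
        rw [h3] at h2
        have h4 : ((n.factorial : ℕ) : ℝ≥0∞) * ENNReal.ofReal c =
            ENNReal.ofReal (((n.factorial : ℕ) : ℝ) * c) := by
          rw [ENNReal.ofReal_mul (p := ((n.factorial : ℕ) : ℝ)) (by positivity),
            ENNReal.ofReal_natCast]
        rw [h4]
        refine (ENNReal.ofReal_le_ofReal h2).trans (le_of_eq ?_)
        rw [ENNReal.ofReal_sum_of_nonneg (fun _ _ => by positivity)]
        refine Finset.sum_congr rfl (fun σ _ => ?_)
        rw [ENNReal.ofReal_natCast]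
      · rw [Set.indicator_of_notMem (by exact hg)]
        exact bot_le
    have h5 := lintegral_mono_ae h1
    rw [lintegral_indicator_const (good_measurable A N),
      lintegral_finsetSum _ (fun σ _ => total_measurable A σ N)] at h5
    have h6 : ∑ σ : Equiv.Perm (Fin n), ∫⁻ ω, ((total A σ N ω : ℕ) : ℝ≥0∞) ∂(coins n) ≤
        ((n.factorial : ℕ) : ℝ≥0∞) * S := by
      calc ∑ σ : Equiv.Perm (Fin n), ∫⁻ ω, ((total A σ N ω : ℕ) : ℝ≥0∞) ∂(coins n)
          ≤ ∑ _σ : Equiv.Perm (Fin n), S := by
            refine Finset.sum_le_sum (fun σ _ => (total_le A σ N).trans ?_)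
            exact le_iSup₂ (f := fun (b : Fin n → Bool) (s : ℕ → Fin n) => expectedReads A b s)
              (inp σ) (blk σ N)
        _ = ((n.factorial : ℕ) : ℝ≥0∞) * S := by
            rw [Finset.sum_const, Finset.card_univ, Fintype.card_perm, Fintype.card_fin,
              nsmul_eq_mul]
    have h7 : ((n.factorial : ℕ) : ℝ≥0∞) * (ENNReal.ofReal c * coins n {ω | Good A N ω}) ≤
        ((n.factorial : ℕ) : ℝ≥0∞) * S := by
      rw [← mul_assoc]; exact h5.trans h6
    exact (ENNReal.mul_le_mul_iff_right hfac0 hfact).1 h7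
  have hlim : Tendsto (fun N => coins n {ω | Good A N ω}) atTop (𝓝 1) := by
    have := tendsto_measure_iUnion_atTop (μ := coins n) (good_mono A)
    rw [good_full hA] at this
    exact this
  have hlim2 : Tendsto (fun N => ENNReal.ofReal c * coins n {ω | Good A N ω}) atTop
      (𝓝 (ENNReal.ofReal c * 1)) :=
    ENNReal.Tendsto.const_mul hlim (Or.inl one_ne_zero)
  rw [mul_one] at hlim2
  exact le_of_tendsto' hlim2 hN

end Pool.Agent.H46.Cons
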