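import Mathlib

/-!
# Randomized consensus with single-reader single-writer registers: the model
-/

namespace Pool.Agent.H46.Cons

open MeasureTheory

/-- What a processor does next: flip a local fair coin, read a register, write a value into a
register, or stay in a final state with an output. -/
inductive Action (Reg Val Loc : Type) where
  /-- flip a fair coin; the next local state depends on the outcome -/
  | flip (next : Bool → Loc)
  /-- read the register `r`; the next local state depends on the value read -/
  | read (r : Reg) (next : Val → Loc)
  /-- write the value `v` into the register `r` -/
  | write (r : Reg) (v : Val) (next : Loc)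
  /-- the processor has output the bit `b` and does nothing any more -/
  | output (b : Bool)

/-- An algorithm for `n` processors with atomic single-reader single-writer registers: arbitrary
sets of registers, of values and of local states; every register has exactly one processor
`writer r` which may write it and exactly one processor `reader r` which may read it. -/
structure Algorithm (n : ℕ) where
  /-- the registers -/
  Reg : Type
  /-- the values stored in registers -/
  Val : Type
  /-- the local states -/
  Loc : Type
  /-- the designated writer -/
  writer : Reg → Fin n
  /-- the designated reader -/
  reader : Reg → Fin n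
  /-- the initial contents of the registers -/
  init : Reg → Val
  /-- the initial local state of a processor with a given input bit -/
  start : Fin n → Bool → Loc
  /-- the next action of a processor in a given local state -/
  act : Fin n → Loc → Action Reg Val Loc
  read_own : ∀ i s r next, act i s = Action.read r next → reader r = i
  write_own : ∀ i s r v next, act i s = Action.write r v next → writer r = i

variable {n : ℕ}

/-- A configuration: contents of the registers, local states, and the numbers of coins flipped
so far by the processors. -/
structure Config (A : Algorithm n) where
  /-- contents of the registers -/
  mem : A.Reg → A.Val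
  /-- local states -/
  loc : Fin n → A.Loc
  /-- numbers of coins flipped so far -/
  used : Fin n → ℕ

/-- The outcomes of the coin flips: `ω i m` is the `m`-th coin of processor `i`. -/
abbrev Tapes (n : ℕ) := Fin n → ℕ → Bool

/-- Independent fair coins. -/
noncomputable def coins (n : ℕ) : Measure (Tapes n) :=
  Measure.pi (fun _ : Fin n => Measure.infinitePi
    (fun _ : ℕ => (PMF.uniformOfFintype Bool).toMeasure))

instance : IsProbabilityMeasure (coins n) := by
  unfold coins; infer_instance

open Classical in
/-- One step of processor `i`. -/
noncomputable def step (A : Algorithm n) (ω : Tapes n) (c : Config A) (i : Fin n) : Config A :=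
  match A.act i (c.loc i) with
  | .flip next => ⟨c.mem, Function.update c.loc i (next (ω i (c.used i))),
      Function.update c.used i (c.used i + 1)⟩
  | .read r next => ⟨c.mem, Function.update c.loc i (next (c.mem r)), c.used⟩
  | .write r v next => ⟨Function.update c.mem r v, Function.update c.loc i next, c.used⟩
  | .output _ => c

/-- The configuration after `t` steps of the execution with inputs `b`, schedule `s` (at time `t`
the processor `s t` takes a step) and coins `ω`. -/
noncomputable def run (A : Algorithm n) (b : Fin n → Bool) (s : ℕ → Fin n) (ω : Tapes n) :
    ℕ → Config A
  | 0 => ⟨A.init, fun i => A.start i (b i), fun _ => 0⟩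
  | t + 1 => step A ω (run A b s ω t) (s t)

/-- The output of processor `i` in a configuration, if it has output already. -/
def Config.out {A : Algorithm n} (c : Config A) (i : Fin n) : Option Bool :=
  match A.act i (c.loc i) with
  | .output b => some b
  | _ => none

/-- The algorithm solves binary consensus against oblivious schedules: with probability 1 all
outputs agree and are the input of some processor, and a processor which keeps taking steps
outputs within finitely many steps. -/
structure Algorithm.Solves (A : Algorithm n) : Prop where
  safe : ∀ (b : Fin n → Bool) (s : ℕ → Fin n), ∀ᵐ ω ∂(coins n), ∀ t i x,
    (run A b s ω t).out i = some x →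
      (∃ k, b k = x) ∧ ∀ j y, (run A b s ω t).out j = some y → y = x
  live : ∀ (b : Fin n → Bool) (s : ℕ → Fin n) (i : Fin n), (∃ᶠ t in Filter.atTop, s t = i) →
    ∀ᵐ ω ∂(coins n), ∃ t x, (run A b s ω t).out i = some x

/-- `1` if the next step of processor `i` is a read, `0` otherwise. -/
def isRead {A : Algorithm n} (c : Config A) (i : Fin n) : ℕ :=
  match A.act i (c.loc i) with
  | .read _ _ => 1
  | _ => 0

/-- `1` if the next step of processor `i` accesses a register, `0` otherwise. -/
def isAccess {A : Algorithm n} (c : Config A) (i : Fin n) : ℕ :=
  match A.act i (c.loc i) with
  | .read _ _ => 1
  | .write _ _ _ => 1
  | _ => 0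

/-- The expected total number of read steps of all processors together. -/
noncomputable def expectedReads (A : Algorithm n) (b : Fin n → Bool) (s : ℕ → Fin n) : ENNReal :=
  ∫⁻ ω, ∑' t, (isRead (run A b s ω t) (s t) : ENNReal) ∂(coins n)

/-- The expected total work: the expected total number of register accesses of all processors
together (coin flips are free). -/
noncomputable def expectedWork (A : Algorithm n) (b : Fin n → Bool) (s : ℕ → Fin n) : ENNReal :=
  ∫⁻ ω, ∑' t, (isAccess (run A b s ω t) (s t) : ENNReal) ∂(coins n)

/-- The cost of an algorithm: the supremum, over inputs and oblivious schedules, of the expected
total work. -/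
noncomputable def Algorithm.cost (A : Algorithm n) : ENNReal :=
  ⨆ (b : Fin n → Bool) (s : ℕ → Fin n), expectedWork A b s

/-- The least cost of an algorithm for `n` processors which solves consensus. -/
noncomputable def W (n : ℕ) : ENNReal := ⨅ (A : Algorithm n) (_ : A.Solves), A.cost

theorem isRead_le_isAccess {A : Algorithm n} (c : Config A) (i : Fin n) :
    isRead c i ≤ isAccess c i := by
  unfold isRead isAccess
  cases A.act i (c.loc i) <;> simp

end Pool.Agent.H46.Cons
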